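import Pool.Agent.N64.AF.SA1
import Pool.Agent.Y129.CatCons

/-!
# Comparison with the realisation (project AF, file Ba)
-/

set_option autoImplicit false

open CategoryTheory Limits MonoidalCategory Module
open Pool.Agent.Y112.SR Pool.Agent.Y112.KD
open Pool.Agent.Y116.MT (tr)

namespace Pool.Agent.N767.AF

/-- Extension of scalars: the dimension of the image of a subspace modulo the common kernel of
functionals does not change. -/
theorem finrank_ext {Λ K V W G : Type*} [Field Λ] [Field K] [Algebra Λ K] [AddCommGroup V]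
    [Module Λ V] [AddCommGroup W] [Module K W] (ρ : V →ₛₗ[algebraMap Λ K] W)
    (N : Submodule Λ V) (P : Submodule K W) [Module.Finite Λ (V ⧸ N)]
    (hNP : ∀ v ∈ N, ρ v ∈ P) (ψ : G → V →ₗ[Λ] Λ) (Ψ : G → W →ₗ[K] K)
    (hψ : ∀ g v, Ψ g (ρ v) = algebraMap Λ K (ψ g v)) (hP : ∀ w ∈ P, ∀ g, Ψ g w = 0)
    (hN : ∀ v, (∀ g, ψ g v = 0) → v ∈ N) (S : Submodule Λ V) (SK : Submodule K W)
    (hS : ∀ s ∈ S, ρ s ∈ SK) (hSK : SK ≤ Submodule.span K (ρ '' S)) :
    finrank Λ (S.map N.mkQ) = finrank K (SK.map P.mkQ) := by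
  classical
  let b := Module.finBasis Λ (S.map N.mkQ)
  have hv : ∀ i, ∃ v ∈ S, N.mkQ v = b i := fun i => Submodule.mem_map.1 (b i).2
  choose v hvS hv using hv
  let u : Fin (finrank Λ (S.map N.mkQ)) → W ⧸ P := fun i => P.mkQ (ρ (v i))
  have hlin : LinearIndependent K u := by
    rw [Fintype.linearIndependent_iff]
    intro c hc
    have h1 : ∑ i, c i • ρ (v i) ∈ P := by
      rw [← Submodule.Quotient.mk_eq_zero, ← Submodule.mkQ_apply, map_sum]
      simpa only [map_smul] using hc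
    have h2 : ∀ g, ∑ i, (ψ g (v i)) • c i = 0 := by
      intro g
      have h3 := hP _ h1 g
      rw [map_sum] at h3
      rw [← h3]
      apply Finset.sum_congr rfl
      intro i _
      rw [map_smul, hψ, Algebra.smul_def, smul_eq_mul, mul_comm]
    let β := Module.Basis.ofVectorSpace Λ K
    have h4 : ∀ l i, β.coord l (c i) = 0 := by
      intro l
      have h5 : ∑ i, β.coord l (c i) • v i ∈ N := by
        apply hN
        intro g
        have h6 := congrArg (β.coord l) (h2 g)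
        rw [map_sum, map_zero] at h6
        rw [map_sum, ← h6]
        apply Finset.sum_congr rfl
        intro i _
        rw [map_smul, map_smul, smul_eq_mul, smul_eq_mul, mul_comm]
      have h7 : ∑ i, β.coord l (c i) • b i = 0 := by
        apply Subtype.ext
        rw [Submodule.coe_sum, Submodule.coe_zero]
        rw [← Submodule.Quotient.mk_eq_zero, ← Submodule.mkQ_apply, map_sum] at h5
        rw [← h5]
        apply Finset.sum_congr rfl
        intro i _
        rw [Submodule.coe_smul, map_smul, hv]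
      exact (Fintype.linearIndependent_iff.1 b.linearIndependent) _ h7
    intro i
    apply β.ext_elem
    intro l
    have := h4 l i
    rw [Module.Basis.coord_apply] at this
    rw [this, map_zero, Finsupp.zero_apply]
  have hspan : SK.map P.mkQ = Submodule.span K (Set.range u) := by
    apply le_antisymm
    · rw [Submodule.map_le_iff_le_comap]
      refine hSK.trans ?_
      rw [Submodule.span_le]
      rintro _ ⟨s, hs, rfl⟩
      rw [SetLike.mem_coe, Submodule.mem_comap]
      have h1 : N.mkQ s ∈ S.map N.mkQ := ⟨s, hs, rfl⟩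
      have h2 := b.sum_repr ⟨N.mkQ s, h1⟩
      have h3 := congrArg Subtype.val h2
      rw [Submodule.coe_sum] at h3
      have h4 : s - ∑ i, b.repr ⟨N.mkQ s, h1⟩ i • v i ∈ N := by
        rw [← Submodule.Quotient.mk_eq_zero, ← Submodule.mkQ_apply, map_sub, map_sum, sub_eq_zero]
        refine h3.symm.trans ?_
        apply Finset.sum_congr rfl
        intro i _
        rw [Submodule.coe_smul, map_smul, hv]
      have h5 := hNP _ h4
      rw [← Submodule.Quotient.mk_eq_zero, ← Submodule.mkQ_apply, map_sub, map_sub, sub_eq_zero] at h5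
      rw [h5, map_sum, map_sum]
      apply Submodule.sum_mem
      intro i _
      rw [LinearMap.map_smulₛₗ, map_smul]
      exact Submodule.smul_mem _ _ (Submodule.subset_span ⟨i, rfl⟩)
    · rw [Submodule.span_le]
      rintro _ ⟨i, rfl⟩
      exact ⟨_, hS _ (hvS i), rfl⟩
  rw [hspan, finrank_span_eq_card hlin, Fintype.card_fin]

end Pool.Agent.N767.AF

namespace Pool.Agent.N64.AF

universe v u w t

variable {C : Type u} [Category.{v} C] [Preadditive C] [MonoidalCategory C]
  [MonoidalPreadditive C] [SymmetricCategory C] [RightRigidCategory C]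
  {Λ : Type t} [Field Λ] [CharZero Λ] [Linear Λ C] [MonoidalLinear Λ C]
  {K : Type w} [Field K] [Algebra Λ K] {R : SuperRealisation C K}

/-- B0 -/
theorem isCat_CK (R : SuperRealisation C K) :
    Pool.Agent.Y129.IsCat (H := fun Y : C => R.H.obj Y) (CK R) := by
  constructor
  · intro Y
    refine Submodule.subset_span ⟨𝟙 Y, ?_⟩
    change (R.H.map (𝟙 Y)).hom = _
    rw [R.H.map_id]
    rfl
  · intro X Y Z g f hg hf
    refine Submodule.span_induction (p := fun g _ => g ∘ₗ f ∈ CK R X Z) ?_ ?_ ?_ ?_ hg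
    · rintro _ ⟨g', rfl⟩
      refine Submodule.span_induction (p := fun f _ => (R.H.map g').hom ∘ₗ f ∈ CK R X Z)
        ?_ ?_ ?_ ?_ hf
      · rintro _ ⟨f', rfl⟩
        refine Submodule.subset_span ⟨f' ≫ g', ?_⟩
        change (R.H.map (f' ≫ g')).hom = _
        rw [R.H.map_comp]
        rfl
      · rw [LinearMap.comp_zero]
        exact Submodule.zero_mem _
      · intro a b _ _ ha hb
        rw [LinearMap.comp_add]
        exact Submodule.add_mem _ ha hb
      · intro c a _ ha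
        rw [LinearMap.comp_smul]
        exact Submodule.smul_mem _ _ ha
    · rw [LinearMap.zero_comp]
      exact Submodule.zero_mem _
    · intro a b _ _ ha hb
      rw [LinearMap.add_comp]
      exact Submodule.add_mem _ ha hb
    · intro c a _ ha
      rw [LinearMap.smul_comp]
      exact Submodule.smul_mem _ _ ha

/-- the parity operator is algebraic -/
theorem _root_.Pool.Agent.N767.AF.exists_w {Y : C} (hY : R.CPlus Y) :
    ∃ w : Y ⟶ Y, R.H.map w = R.par Y := by
  obtain ⟨f0, hf0⟩ := hY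
  refine ⟨f0 + f0 - 𝟙 Y, ?_⟩
  rw [Functor.map_sub, Functor.map_add, ← two_smul K, hf0, R.H.map_id]
  abel

/-- B0a -/
theorem mem_perp_iff (hR : IsReal Λ R) {Y Z : C} (hY : R.CPlus Y) (f : Y ⟶ Z) :
    (R.H.map f).hom ∈ Pool.Agent.Y129.perp (H := fun Y : C => R.H.obj Y) (CK R) Y Z ↔
      NumTriv f := by
  obtain ⟨w, hw⟩ := Pool.Agent.N767.AF.exists_w hY
  have hcomp : ∀ g : Z ⟶ Y, (R.H.map g).hom ∘ₗ (R.H.map f).hom = (R.H.map (f ≫ g)).hom := by
    intro g
    rw [R.H.map_comp]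
    rfl
  constructor
  · intro h g
    rw [tr_eq_zero_iff hR]
    have h1 := h (R.H.map (g ≫ w)).hom (Submodule.subset_span ⟨g ≫ w, rfl⟩)
    rw [hcomp] at h1
    have h2 : R.H.map (f ≫ g) ≫ R.par Y = R.H.map (f ≫ g ≫ w) := by
      rw [← Category.assoc, R.H.map_comp (f ≫ g) w, hw]
    rw [h2]
    exact h1
  · intro h g hg
    refine Submodule.span_induction (p := fun g _ =>
      LinearMap.trace K (R.H.obj Y) (g ∘ₗ (R.H.map f).hom) = 0) ?_ ?_ ?_ ?_ hg
    · rintro _ ⟨g, rfl⟩
      have h1 := (tr_eq_zero_iff hR _).1 (h (g ≫ w))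
      have h2 : R.H.map (f ≫ g ≫ w) ≫ R.par Y = R.H.map (f ≫ g) := by
        rw [← Category.assoc, R.H.map_comp (f ≫ g) w, hw, Category.assoc, R.par_sq,
          Category.comp_id]
      rw [h2] at h1
      change LinearMap.trace K (R.H.obj Y) ((R.H.map g).hom ∘ₗ (R.H.map f).hom) = 0
      rw [hcomp]
      exact h1
    · rw [LinearMap.zero_comp, map_zero]
    · intro a b _ _ ha hb
      rw [LinearMap.add_comp, map_add, ha, hb, add_zero]
    · intro c a _ ha
      rw [LinearMap.smul_comp, map_smul, ha, smul_zero]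

/-- B0b: the dimension can be computed in the realisation. -/
theorem nr_eq_nd (hR : IsReal Λ R) {Y Z : C} (hY : R.CPlus Y) (e : Y ⟶ Y) (f : Z ⟶ Z) :
    nr Λ e f = Pool.Agent.Y129.nd (H := fun Y : C => R.H.obj Y) (CK R) Y Z
      (Pool.Agent.Y129.sand (H := fun Y : C => R.H.obj Y) (CK R) Y Z (R.H.map f).hom
        (R.H.map e).hom) := by
  obtain ⟨w, hw⟩ := Pool.Agent.N767.AF.exists_w hY
  obtain ⟨τ, hτ1, hτ2⟩ := exists_tau hR Y
  have := finite_num hR Y Z
  let ρ : (Y ⟶ Z) →ₛₗ[algebraMap Λ K] (R.H.obj Y →ₗ[K] R.H.obj Z) :=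
    { toFun := fun a => (R.H.map a).hom
      map_add' := fun a b => by rw [R.H.map_add]; rfl
      map_smul' := fun c a => by rw [hR.lin]; rfl }
  have hρ : ∀ a, ρ a = (R.H.map a).hom := fun _ => rfl
  let ψ : (Z ⟶ Y) → (Y ⟶ Z) →ₗ[Λ] Λ := fun g => τ ∘ₗ Linear.rightComp Λ Y (g ≫ w)
  let Ψ : (Z ⟶ Y) → (R.H.obj Y →ₗ[K] R.H.obj Z) →ₗ[K] K := fun g =>
    { toFun := fun F => LinearMap.trace K (R.H.obj Y) ((R.H.map g).hom ∘ₗ F)
      map_add' := fun a b => by rw [LinearMap.comp_add, map_add]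
      map_smul' := fun c a => by rw [LinearMap.comp_smul, map_smul]; rfl }
  have hΨ : ∀ g F, Ψ g F = LinearMap.trace K (R.H.obj Y) ((R.H.map g).hom ∘ₗ F) := fun _ _ => rfl
  have hψ : ∀ g v, Ψ g (ρ v) = algebraMap Λ K (ψ g v) := by
    intro g v
    have h1 : ψ g v = τ (v ≫ g ≫ w) := rfl
    rw [h1, hτ2, hΨ, hρ]
    have h2 : R.H.map (v ≫ g ≫ w) ≫ R.par Y = R.H.map v ≫ R.H.map g := by
      rw [← Category.assoc, R.H.map_comp (v ≫ g) w, hw, Category.assoc, R.par_sq,
        Category.comp_id, R.H.map_comp]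
    rw [h2]
    rfl
  have hP : ∀ F ∈ Pool.Agent.Y129.perp (H := fun Y : C => R.H.obj Y) (CK R) Y Z, ∀ g,
      Ψ g F = 0 := by
    intro F hF g
    exact hF _ (Submodule.subset_span ⟨g, rfl⟩)
  have hN : ∀ v, (∀ g, ψ g v = 0) → v ∈ numIdeal Λ Y Z := by
    intro v hv
    rw [mem_numIdeal]
    intro g
    rw [tr_eq_zero_iff hR]
    have h1 := hψ (g ≫ w) v
    rw [hv, map_zero, hΨ, hρ] at h1
    have h2 : (R.H.map (g ≫ w)).hom ∘ₗ (R.H.map v).hom = (R.H.map (v ≫ g) ≫ R.par Y).hom := by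
      rw [← hw, ← R.H.map_comp, Category.assoc, R.H.map_comp v (g ≫ w)]
      rfl
    rw [h2] at h1
    exact h1
  have hA : nr Λ e f = finrank Λ ((LinearMap.range (Linear.rightComp Λ Y f ∘ₗ
      Linear.leftComp Λ Z e)).map (numIdeal Λ Y Z).mkQ) := by
    unfold nr
    rw [LinearMap.range_comp]
  rw [hA]
  unfold Pool.Agent.Y129.nd
  refine Pool.Agent.N767.AF.finrank_ext ρ (numIdeal Λ Y Z)
    (Pool.Agent.Y129.perp (H := fun Y : C => R.H.obj Y) (CK R) Y Z) ?_ ψ Ψ hψ hP hN _ _ ?_ ?_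
  · intro v hv
    exact (mem_perp_iff hR hY v).2 hv
  · rintro _ ⟨c, rfl⟩
    refine ⟨(R.H.map c).hom, Submodule.subset_span ⟨c, rfl⟩, ?_⟩
    rw [hρ]
    change (R.H.map f).hom ∘ₗ (R.H.map c).hom ∘ₗ (R.H.map e).hom = (R.H.map ((e ≫ c) ≫ f)).hom
    rw [R.H.map_comp, R.H.map_comp]
    rfl
  · rintro _ ⟨c, hc, rfl⟩
    refine Submodule.span_induction (p := fun c _ => (R.H.map f).hom ∘ₗ c ∘ₗ (R.H.map e).hom ∈
      Submodule.span K (ρ '' (LinearMap.range (Linear.rightComp Λ Y f ∘ₗ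
      Linear.leftComp Λ Z e)))) ?_ ?_ ?_ ?_ hc
    · rintro _ ⟨c, rfl⟩
      refine Submodule.subset_span ⟨(e ≫ c) ≫ f, ⟨c, rfl⟩, ?_⟩
      rw [hρ, R.H.map_comp, R.H.map_comp]
      rfl
    · rw [LinearMap.zero_comp, LinearMap.comp_zero]
      exact Submodule.zero_mem _
    · intro a b _ _ ha hb
      rw [LinearMap.add_comp, LinearMap.comp_add]
      exact Submodule.add_mem _ ha hb
    · intro c a _ ha
      rw [LinearMap.smul_comp, LinearMap.comp_smul]
      exact Submodule.smul_mem _ _ ha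

end Pool.Agent.N64.AF
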